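import Pool.Agent.Helper98.QR.StmtsE

namespace QR

open Filter Topology MeasureTheory

theorem st_E04 (h01 : ST_E01) (h02 : ST_E02) (h05 : ST_E05) : ST_E04 := by
  intro Ω _ P _ H hH ρ Z hZ hev
  obtain ⟨-, -, -, hsym, hnear, -⟩ := h01
  have key : ∀ F : FBd, ¬ Z _ F.G → P {ω | BIso ρ (H ω) F.G} = 0 := by
    intro F hF
    obtain ⟨L, hL1, hL2⟩ := hH.lim ρ (F.1 + 1) F.G
    have hL0 : ∀ᶠ p in atTop, L p = 0 := by
      filter_upwards [hev, eventually_ge_atTop 2] with p hp hp2
      have hprob : ∀ n, prob n p (fun x => BIso ρ (x.1.bg x.2) F.G) = 0 := by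
        intro n
        unfold prob
        have : IsEmpty {x // x ∈ SQ n p ∧ BIso ρ (x.1.bg x.2) F.G} := by
          constructor
          rintro ⟨x, hx, hb⟩
          obtain ⟨hadj, -, hreg⟩ := h05 n p hp2 x hx
          have hn := hnear _ (x.1.bg x.2) (hreg x hx).symm1 hadj ρ
          have h4 := hsym ρ _ _ _ _ hb hn
          exact hF ((hZ _ _ _ _ hb (fun i hi => ⟨fun _ => h4.2 i hi, fun _ => hn i hi⟩)).1
            (hp n x hx))
        rw [Nat.card_of_isEmpty]
        simp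
      have h0 : Tendsto (fun n => prob n p (fun x => BIso ρ (x.1.bg x.2) F.G)) atTop (𝓝 0) := by
        have : (fun n => prob n p (fun x => BIso ρ (x.1.bg x.2) F.G)) = fun _ => 0 := funext hprob
        rw [this]
        exact tendsto_const_nhds
      exact tendsto_nhds_unique (hL1 p (by omega)) h0
    have h1 : Tendsto L atTop (𝓝 0) :=
      tendsto_const_nhds.congr' (hL0.mono (fun p hp => hp.symm))
    have h2 := tendsto_nhds_unique hL2 h1
    rw [ENNReal.toReal_eq_zero_iff] at h2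
    rcases h2 with h2 | h2
    · exact h2
    · exact absurd h2 (measure_ne_top P _)
  rw [ae_iff]
  have : Countable FBd := by unfold FBd; infer_instance
  have hsub : {ω | ¬ Z ℕ (H ω)} ⊆ ⋃ F : {F : FBd // ¬ Z _ F.G}, {ω | BIso ρ (H ω) F.1.G} := by
    intro ω hω
    obtain ⟨F, hF1, hF2⟩ := h02 ρ ℕ (H ω) (hH.symm ω) (hH.locfin ω)
    have hZF := hZ _ _ _ _ hF1 hF2
    rw [Set.mem_iUnion]
    exact ⟨⟨F, fun h => hω (hZF.2 h)⟩, hF1⟩
  refine measure_mono_null hsub ?_
  rw [measure_iUnion_null_iff]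
  rintro ⟨F, hF⟩
  exact key F hF

end QR
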