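import Pool.Agent.Helper98.QR.StmtsE

namespace QR

namespace E09

theorem near_refl {V : Type} (c : V → V → ℕ) (r : ℕ) (x : V) : SPR.Near c r x x := by
  induction r with
  | zero => exact rfl
  | succ r ih => exact Or.inl ih

theorem near_equiv {V W : Type} (c : V → V → ℕ) (c' : W → W → ℕ) (e : V ≃ W)
    (h : ∀ u v, c u v = c' (e u) (e v)) (r : ℕ) (x y : V) :
    SPR.Near c r x y ↔ SPR.Near c' r (e x) (e y) := by
  induction r generalizing y with
  | zero =>
    show x = y ↔ e x = e y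
    exact e.apply_eq_iff_eq.symm
  | succ r ih =>
    show (SPR.Near c r x y ∨ ∃ z, SPR.Near c r x z ∧ c z y ≠ 0) ↔
      (SPR.Near c' r (e x) (e y) ∨ ∃ z, SPR.Near c' r (e x) z ∧ c' z (e y) ≠ 0)
    rw [ih y]
    apply or_congr Iff.rfl
    constructor
    · rintro ⟨z, hz, hc⟩
      exact ⟨e z, (ih z).1 hz, by rw [← h]; exact hc⟩
    · rintro ⟨z, hz, hc⟩
      refine ⟨e.symm z, (ih _).2 (by simpa using hz), ?_⟩
      rw [h]
      simpa using hc

end E09

open E09 in
theorem st_E09 : ST_E09 := by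
  refine ⟨?_, ?_, ?_⟩
  · rintro r V W c x c' x' ⟨e, he, hc⟩
    refine ⟨e.symm, ?_, ?_⟩
    · intro h'
      have h1 : e ⟨x, near_refl c r x⟩ = ⟨x', h'⟩ := Subtype.ext (he _)
      rw [← h1, Equiv.symm_apply_apply]
    · intro u v
      have := hc (e.symm u) (e.symm v)
      rw [Equiv.apply_symm_apply, Equiv.apply_symm_apply] at this
      exact this.symm
  · rintro r V W U c x c' x' c'' x'' ⟨e, he, hc⟩ ⟨f, hf, hc'⟩
    refine ⟨e.trans f, ?_, ?_⟩
    · intro h
      have h1 : e ⟨x, h⟩ = ⟨x', near_refl c' r x'⟩ := Subtype.ext (he _)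
      rw [Equiv.trans_apply, h1]
      exact hf _
    · intro u v
      rw [hc u v, hc' (e u) (e v)]
      rfl
  · intro r V W c x c' x' e hx h
    subst hx
    refine ⟨e.subtypeEquiv (fun v => near_equiv c c' e h r x v), ?_, ?_⟩
    · intro _
      rfl
    · intro u v
      exact h _ _

end QR
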