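import Pool.Agent.Helper98.QR.StmtsE

namespace QR

namespace E14

theorem gluePt_rot (h07 : ST_E07) {V W : Type} (G G1 : BGraph V) (G' G1' : BGraph W) (i : ℤ)
    (hb : ∀ l, G1.b l = G.b (l + i)) (hb' : ∀ l, G1'.b l = G'.b (l - i))
    (hR : RegP G G') (hR1 : RegP G1 G1') (w : W) : gluePt G1 G1' w = gluePt G G' w := by
  obtain ⟨h1, h2, -⟩ := h07 V W G G' hR
  obtain ⟨h3, h4, -⟩ := h07 V W G1 G1' hR1
  by_cases hw : w ∈ Set.range G'.b
  · obtain ⟨j, rfl⟩ := hw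
    have e1 : G'.b j = G'.b (1 - (1 - j)) := by congr 1; ring
    have e2 : G'.b j = G1'.b (1 - (1 - j - i)) := by rw [hb']; congr 1; ring
    rw [e2, h3, hb, ← e2, e1, h1]
    congr 2
    ring
  · rw [h2 w hw, h4 w]
    rintro ⟨j, hj⟩
    exact hw ⟨j - i, by rw [← hb', hj]⟩

theorem glueC_rot (h07 : ST_E07) {V W : Type} (G G1 : BGraph V) (G' G1' : BGraph W) (i : ℤ)
    (hc : G1.c = G.c) (hc' : G1'.c = G'.c)
    (hb : ∀ l, G1.b l = G.b (l + i)) (hb' : ∀ l, G1'.b l = G'.b (l - i))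
    (hR : RegP G G') (hR1 : RegP G1 G1') : glueC G1 G1' = glueC G G' := by
  classical
  have hp : gluePt G1 G1' = gluePt G G' :=
    funext (gluePt_rot h07 G G1 G' G1' i hb hb' hR hR1)
  have hE : ∀ u v : W, (∃ j : ℤ, (G1'.b j = u ∧ G1'.b (j + 1) = v) ∨ (G1'.b j = v ∧ G1'.b (j + 1) = u)) ↔
      (∃ j : ℤ, (G'.b j = u ∧ G'.b (j + 1) = v) ∨ (G'.b j = v ∧ G'.b (j + 1) = u)) := by
    intro u v
    constructor
    · rintro ⟨j, hj⟩
      refine ⟨j - i, ?_⟩
      rw [hb', hb'] at hj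
      rwa [show j + 1 - i = j - i + 1 by ring] at hj
    · rintro ⟨j, hj⟩
      refine ⟨j + i, ?_⟩
      rw [hb', hb']
      rwa [show j + i + 1 - i = j + 1 by ring, show j + i - i = j by ring]
  funext x y
  unfold glueC
  rw [hc, hc', hp]
  congr 1
  refine finsum_congr (fun u => finsum_congr (fun v => ?_))
  congr 2
  exact if_congr (hE u v) rfl rfl

theorem quad_rot {D : Type} (m : RMap D) (o : D) (n p : ℕ) (i : ℤ) :
    m.IsQuad o n p ↔ m.IsQuad ((m.face ^ i) o) n p := by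
  have hs : ∀ d, m.face.SameCycle ((m.face ^ i) o) d ↔ m.face.SameCycle o d := fun d =>
    Equiv.Perm.sameCycle_zpow_left
  have hf : m.fdeg ((m.face ^ i) o) = m.fdeg o := by
    unfold RMap.fdeg
    exact Nat.card_congr (Equiv.subtypeEquivRight hs)
  constructor
  · intro h
    refine ⟨h.planar, by rw [hf]; exact h.outer, ?_, h.card⟩
    intro d hd
    exact h.inner d (fun hh => hd ((hs d).2 hh))
  · intro h
    refine ⟨h.planar, by rw [← hf]; exact h.outer, ?_, h.card⟩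
    intro d hd
    exact h.inner d (fun hh => hd ((hs d).1 hh))

theorem simple_rot {D : Type} (m : RMap D) (o : D) (i : ℤ) :
    m.Simple o ↔ m.Simple ((m.face ^ i) o) := by
  have hs : ∀ d, m.face.SameCycle ((m.face ^ i) o) d ↔ m.face.SameCycle o d := fun d =>
    Equiv.Perm.sameCycle_zpow_left
  unfold RMap.Simple
  constructor
  · intro h d d' h1 h2
    exact h d d' ((hs d).1 h1) ((hs d').1 h2)
  · intro h d d' h1 h2
    exact h d d' ((hs d).2 h1) ((hs d').2 h2)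

theorem bg_rot {D : Type} (m : RMap D) (o : D) (i l : ℤ) :
    (m.bg ((m.face ^ i) o)).b l = (m.bg o).b (l + i) := by
  show m.tail ((m.face ^ l) ((m.face ^ i) o)) = m.tail ((m.face ^ (l + i)) o)
  rw [zpow_add, Equiv.Perm.mul_apply]

theorem mem_rot (n p : ℕ) (i : ℤ) (x : RMap (Fin (4 * n + 2 * p)) × Fin (4 * n + 2 * p)) :
    x ∈ SQ n p ↔ (x.1, (x.1.face ^ i) x.2) ∈ SQ n p :=
  and_congr (quad_rot x.1 x.2 n p i) (simple_rot x.1 x.2 i)

end E14

open E14 in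
theorem st_E14 (h05 : ST_E05) (h07 : ST_E07) : ST_E14 := by
  intro n p hp i
  refine ⟨mem_rot n p i, fun x _ l => bg_rot x.1 x.2 i l, ?_⟩
  intro x hx y hy
  have hx' := (mem_rot n p i x).1 hx
  have hy' := (mem_rot n p (-i) y).1 hy
  exact glueC_rot h07 (x.1.bg x.2) (x.1.bg ((x.1.face ^ i) x.2)) (y.1.bg y.2)
    (y.1.bg ((y.1.face ^ (-i)) y.2)) i rfl rfl (bg_rot x.1 x.2 i)
    (fun l => by rw [bg_rot, sub_eq_add_neg])
    ((h05 n p hp x hx).2.2 y hy) ((h05 n p hp _ hx').2.2 _ hy')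

end QR
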