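import Pool.Agent.Helper98.QR.StmtsE

namespace QR

open Filter Topology MeasureTheory

theorem st_E16 : ST_E16 := by
  intro Ω _ P _ H hH
  have hlim : ∀ a : ℕ × FBd, ∃ L : ℕ → ℝ,
      (∀ p, 1 ≤ p → Tendsto (fun n => prob n p (fun x => BIso a.1 (x.1.bg x.2) a.2.G)) atTop
        (𝓝 (L p))) ∧
      Tendsto L atTop (𝓝 (P {ω | BIso a.1 (H ω) a.2.G}).toReal) :=
    fun a => hH.lim a.1 (a.2.1 + 1) a.2.G
  choose L hL1 hL2 using hlim
  have hcount : Countable FBd := by unfold FBd; infer_instance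
  have hne : Nonempty FBd := ⟨⟨0, 0, fun _ _ => 0, fun _ => 0⟩⟩
  obtain ⟨f, hf⟩ := exists_surjective_nat (ℕ × FBd)
  have hex : ∀ k p : ℕ, ∃ N : ℕ, ∀ n, N ≤ n → 1 ≤ p → ∀ j ∈ Finset.range (k + 1),
      |prob n p (fun x => BIso (f j).1 (x.1.bg x.2) (f j).2.G) - L (f j) p| ≤ 1 / ((k : ℝ) + 1) := by
    intro k p
    by_cases hp : 1 ≤ p
    · have hev : ∀ᶠ n in atTop, ∀ j ∈ Finset.range (k + 1),
          |prob n p (fun x => BIso (f j).1 (x.1.bg x.2) (f j).2.G) - L (f j) p| ≤
            1 / ((k : ℝ) + 1) := by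
        rw [Filter.eventually_all_finset]
        intro j _
        have h := hL1 (f j) p hp
        rw [Metric.tendsto_atTop] at h
        obtain ⟨N, hN⟩ := h (1 / ((k : ℝ) + 1)) (by positivity)
        filter_upwards [eventually_ge_atTop N] with n hn
        exact le_of_lt (hN n hn)
      rw [eventually_atTop] at hev
      obtain ⟨N, hN⟩ := hev
      exact ⟨N, fun n hn _ => hN n hn⟩
    · exact ⟨0, fun n _ h => absurd h hp⟩
  choose n0 hn0 using hex
  refine ⟨n0, ?_⟩
  intro n p hp hn r F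
  obtain ⟨j, hj⟩ := hf (r, F)
  have hpt : Tendsto p atTop atTop := tendsto_atTop_mono hp tendsto_id
  have h1 : Tendsto (fun k => L (r, F) (p k)) atTop (𝓝 (P {ω | BIso r (H ω) F.G}).toReal) :=
    (hL2 (r, F)).comp hpt
  have h2 : Tendsto (fun k => prob (n k) (p k) (fun x => BIso r (x.1.bg x.2) F.G) -
      L (r, F) (p k)) atTop (𝓝 0) := by
    rw [tendsto_zero_iff_abs_tendsto_zero]
    refine squeeze_zero' (g := fun k : ℕ => 1 / ((k : ℝ) + 1))
      (Eventually.of_forall (fun k => abs_nonneg _)) ?_ tendsto_one_div_add_atTop_nhds_zero_nat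
    filter_upwards [eventually_ge_atTop (max j 1)] with k hk
    have hk1 : 1 ≤ k := le_trans (le_max_right _ _) hk
    have hkj : j ≤ k := le_trans (le_max_left _ _) hk
    have h := hn0 k (p k) (n k) (hn k) (le_trans hk1 (hp k)) j (Finset.mem_range.2 (by omega))
    rw [hj] at h
    exact h
  have h3 := h2.add h1
  simpa using h3

end QR
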