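import Pool.Agent.Helper98.QR.StmtsE

namespace QR

namespace E17

theorem deg_equiv {V W : Type} (c : V → V → ℕ) (c' : W → W → ℕ) (e : V ≃ W)
    (h : ∀ u v, c u v = c' (e u) (e v)) (x : V) : SPR.deg c x = SPR.deg c' (e x) := by
  unfold SPR.deg
  rw [← finsum_comp_equiv e]
  exact finsum_congr (fun y => h x y)

theorem avg_equiv {V W : Type} (c : V → V → ℕ) (c' : W → W → ℕ) (e : V ≃ W)
    (h : ∀ u v, c u v = c' (e u) (e v)) (f : V → ℝ) (f' : W → ℝ) (hf : ∀ v, f v = f' (e v)) (x : V) :
    SPR.avg c f x = SPR.avg c' f' (e x) := by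
  unfold SPR.avg
  rw [deg_equiv c c' e h x, ← finsum_comp_equiv e]
  congr 1
  exact finsum_congr (fun y => by rw [h x y, hf y])

theorem hit_equiv {V W : Type} (c : V → V → ℕ) (c' : W → W → ℕ) (o : V) (e : V ≃ W)
    (h : ∀ u v, c u v = c' (e u) (e v)) (n : ℕ) (x : V) :
    SPR.hit c o n x = SPR.hit c' (e o) n (e x) := by
  induction n generalizing x with
  | zero =>
    unfold SPR.hit
    by_cases hx : x = o
    · simp [hx]
    · have : e x ≠ e o := fun hh => hx (e.injective hh)
      simp [hx]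
  | succ n ih =>
    unfold SPR.hit
    by_cases hx : x = o
    · simp [hx]
    · have h2 : e x ≠ e o := fun hh => hx (e.injective hh)
      rw [if_neg hx, if_neg h2]
      exact avg_equiv c c' e h _ _ ih x

end E17

open E17 in
theorem st_E17 : ST_E17 := by
  intro V W c c' o e h
  unfold SPR.Recurrent
  have : (fun n => SPR.avg c (SPR.hit c o n) o) = fun n => SPR.avg c' (SPR.hit c' (e o) n) (e o) := by
    funext n
    exact avg_equiv c c' e h _ _ (hit_equiv c c' o e h n) o
  rw [this]

end QR
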